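import Pool.Agent.HD.Core
import Pool.Agent.HD.Params
import Pool.Agent.HD.Literal

/-!
# MP_134267_co: spanning nearly balanced clique subdivisions in spectral expanders of large degree

There are constants `C > 0` and `0 < c < 1` such that every `(n, d, lam)`-graph with `d ≥ C * lam`
(a CONSTANT spectral ratio) and `d ≥ C * (log n)^4` contains a spanning nearly balanced
`K_t`-subdivision for all `2 ≤ t ≤ min (c * d) (c * √(n / (log n)^3))`.
-/

set_option autoImplicit false

namespace Pool.Agent.Kept.MP_134267_co.HighDegree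

open Pool.Agent.HD

/-- **High degree regime, constant spectral ratio.** -/
theorem result : ∃ C c : ℝ, 0 < C ∧ 0 < c ∧ c < 1 ∧
    ∀ (V : Type) [Fintype V] [DecidableEq V] (G : SimpleGraph V) [DecidableRel G.Adj]
      (d : ℕ) (lam : ℝ), G.IsRegularOfDegree d →
      (∀ mu ∈ (G.adjMatrix ℝ).charpoly.roots.erase (d : ℝ), |mu| ≤ lam) →
      C * lam ≤ d → C * (Real.log (Fintype.card V)) ^ 4 ≤ d →
      ∀ t : ℕ, 2 ≤ t → (t : ℝ) ≤ c * d →
        (t : ℝ) ≤ c * √((Fintype.card V : ℝ) / (Real.log (Fintype.card V)) ^ 3) →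
        HasSubdivision G t := by
  obtain ⟨C, c, hC, hc0, hc1, H⟩ := parameters
  refine ⟨C, c, hC, hc0, hc1, ?_⟩
  intro V _ _ G _ d lam hreg hspec hlam hlog t ht htd htn
  -- replace `lam` by `max lam 0`
  have hN : IsNDL G d (max lam 0) :=
    IsNDL.of_literal G hreg fun mu hmu => (hspec mu hmu).trans (le_max_left _ _)
  have h0 : (0 : ℝ) ≤ max lam 0 := le_max_right _ _
  have hd0 : (0 : ℝ) ≤ d := Nat.cast_nonneg d
  have h1 : C * max lam 0 ≤ d := by
    rcases le_total lam 0 with h | h
    · rw [max_eq_right h, mul_zero]; exact hd0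
    · rw [max_eq_left h]; exact hlam
  -- the degree is at most the number of vertices
  have hdn : d ≤ Fintype.card V := by
    by_contra hcon
    push Not at hcon
    have hemp : IsEmpty V := by
      rw [← not_nonempty_iff]
      rintro ⟨v⟩
      have h2 := hN.reg v
      have h3 := Finset.card_le_univ (G.neighborFinset v)
      omega
    have hcard : Fintype.card V = 0 := Fintype.card_eq_zero
    rw [hcard] at htn
    simp at htn
    have : (2 : ℝ) ≤ t := by exact_mod_cast ht
    linarith
  obtain ⟨κn, m, hh, κ, Q, K, l, g, qf, hp⟩ :=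
    H (Fintype.card V) d t (max lam 0) h0 h1 hlog hdn ht htd htn
  exact core G hN h0 t κn m hh κ Q K l g qf hp

end Pool.Agent.Kept.MP_134267_co.HighDegree
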